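import Pool.Agent.Lib.helper24.SmallAut

set_option autoImplicit false

namespace Pool.Agent.Results.MP_a94181_al.Small

theorem result (a : ℝ) (ha : 0 < a) : ∃ (H : Type) (_ : Group H) (_ : Finite H),
    IsPGroup 2 H ∧ Group.IsNilpotent H ∧
    (Nat.card (MulAut H) : ℝ) < (Nat.totient (Nat.card H) : ℝ) ^ a := by
  obtain ⟨k, hk⟩ := exists_nat_gt (21 / a)
  obtain ⟨H, _, _, q, hq, hp, h1, h2⟩ := Pool.Agent.Lib.helper24.SmallAut.main k
  have : Fact (Nat.Prime 2) := ⟨Nat.prime_two⟩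
  refine ⟨H, inferInstance, inferInstance, hp, hp.isNilpotent, ?_⟩
  have hq' : (1 : ℝ) < q := by exact_mod_cast hq
  have hk1 : 21 < k * a := (div_lt_iff₀ ha).1 hk
  have hk0 : (1 : ℝ) ≤ k := by
    have : k ≠ 0 := by rintro rfl; norm_num at hk1
    exact_mod_cast Nat.one_le_iff_ne_zero.2 this
  calc (Nat.card (MulAut H) : ℝ) ≤ (q : ℝ) ^ (20 * k + 1) := by exact_mod_cast h1
    _ = (q : ℝ) ^ ((20 * k + 1 : ℕ) : ℝ) := (Real.rpow_natCast _ _).symm
    _ < (q : ℝ) ^ (((k * k : ℕ) : ℝ) * a) := by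
      apply Real.rpow_lt_rpow_of_exponent_lt hq'
      push_cast
      nlinarith
    _ = ((q : ℝ) ^ (k * k)) ^ a := by rw [Real.rpow_mul (by linarith), Real.rpow_natCast]
    _ ≤ _ := by
      apply Real.rpow_le_rpow (by positivity) _ ha.le
      exact_mod_cast h2

end Pool.Agent.Results.MP_a94181_al.Small
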